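import Pool.Agent.W_MP_3c0e9a_an.Iid

set_option autoImplicit false
open MeasureTheory Filter Topology ProbabilityTheory

namespace Pool.Agent.W_MP_3c0e9a_an

section

variable (U : ℕ → ℝ → unitInterval)

/-- The set where the `k`-th uniform variable is at most `2^{-l}`. -/
def A (k l : ℕ) : Set ℝ := {s | ((U k s : unitInterval) : ℝ) ≤ (1/2 : ℝ)^l}

/-- The centered normalized indicator function. -/
noncomputable def H (k l : ℕ) (s : ℝ) : ℝ := (2:ℝ)^l * (A U k l).indicator (fun _ => (1:ℝ)) s - 1

/-- The random level. -/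
noncomputable def L (k : ℕ) (t : ℝ) : ℕ := ⌊1 / ((U k t : unitInterval) : ℝ)⌋₊

variable {U}

lemma measurableSet_A (hU : ∀ k, Measurable (U k)) (k l : ℕ) : MeasurableSet (A U k l) :=
  measurableSet_le ((measurable_subtype_coe).comp (hU k)) measurable_const

lemma measurable_H (hU : ∀ k, Measurable (U k)) (k l : ℕ) : Measurable (H U k l) := by
  unfold H
  exact ((measurable_const.indicator (measurableSet_A hU k l)).const_mul _).sub_const _

lemma measurable_L (hU : ∀ k, Measurable (U k)) (k : ℕ) : Measurable (L U k) := by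
  unfold L
  have : Measurable fun t => ((U k t : unitInterval) : ℝ) := (measurable_subtype_coe).comp (hU k)
  exact Nat.measurable_floor.comp (measurable_const.div this)

lemma meas_le (hU : ∀ k, Measurable (U k)) (hlaw : ∀ k, Measure.map (U k) mu = volume)
    (k : ℕ) (x : unitInterval) : mu {s | ((U k s : unitInterval) : ℝ) ≤ x} = ENNReal.ofReal x := by
  have h := unitInterval.volume_Iic x
  rw [← hlaw k, Measure.map_apply (hU k) measurableSet_Iic] at h
  exact h

lemma meas_A (hU : ∀ k, Measurable (U k)) (hlaw : ∀ k, Measure.map (U k) mu = volume)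
    (k l : ℕ) : mu (A U k l) = ENNReal.ofReal ((1/2:ℝ)^l) := by
  have hx : (1/2:ℝ)^l ∈ Set.Icc (0:ℝ) 1 :=
    ⟨by positivity, pow_le_one₀ (by norm_num) (by norm_num)⟩
  exact meas_le hU hlaw k ⟨(1/2:ℝ)^l, hx⟩

lemma measReal_A (hU : ∀ k, Measurable (U k)) (hlaw : ∀ k, Measure.map (U k) mu = volume)
    (k l : ℕ) : mu.real (A U k l) = (1/2:ℝ)^l := by
  rw [measureReal_def, meas_A hU hlaw, ENNReal.toReal_ofReal (by positivity)]

lemma abs_H_le (k l : ℕ) (s : ℝ) : |H U k l s| ≤ 2^l + 1 := by
  unfold H
  by_cases hs : s ∈ A U k l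
  · rw [Set.indicator_of_mem hs, mul_one]
    have : (0:ℝ) < 2^l := by positivity
    rw [abs_le]; constructor <;> linarith
  · rw [Set.indicator_of_notMem hs, mul_zero]
    have : (0:ℝ) < 2^l := by positivity
    rw [abs_le]; constructor <;> linarith

lemma integrable_H (hU : ∀ k, Measurable (U k)) (k l : ℕ) : Integrable (H U k l) mu := by
  refine Integrable.of_bound (measurable_H hU k l).aestronglyMeasurable (2^l+1) ?_
  exact Filter.Eventually.of_forall fun s => by
    rw [Real.norm_eq_abs]; exact abs_H_le k l s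

lemma integral_H (hU : ∀ k, Measurable (U k)) (hlaw : ∀ k, Measure.map (U k) mu = volume)
    (k l : ℕ) : ∫ s, H U k l s ∂mu = 0 := by
  unfold H
  rw [integral_sub, integral_const_mul, integral_indicator_const _ (measurableSet_A hU k l),
    measReal_A hU hlaw]
  · simp
  · exact ((integrable_const (1:ℝ)).indicator (measurableSet_A hU k l)).const_mul _
  · exact integrable_const _

lemma integral_H_sq (hU : ∀ k, Measurable (U k)) (hlaw : ∀ k, Measure.map (U k) mu = volume)
    (k l : ℕ) : ∫ s, H U k l s * H U k l s ∂mu = 2^l - 1 := by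
  have h1 : ∀ s, H U k l s * H U k l s = ((2:ℝ)^l - 2) * H U k l s + (2^l - 1) := by
    intro s
    unfold H
    by_cases hs : s ∈ A U k l
    · rw [Set.indicator_of_mem hs, mul_one]; ring
    · rw [Set.indicator_of_notMem hs, mul_zero]; ring
  simp_rw [h1]
  rw [integral_add ((integrable_H hU k l).const_mul _) (integrable_const _), integral_const_mul,
    integral_H hU hlaw]
  simp

lemma integral_H_mul (hU : ∀ k, Measurable (U k)) (hlaw : ∀ k, Measure.map (U k) mu = volume)
    (hind : iIndepFun U mu) {k k' : ℕ} (hk : k ≠ k') (l : ℕ) :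
    ∫ s, H U k l s * H U k' l s ∂mu = 0 := by
  have h0 : IndepFun (U k) (U k') mu := hind.indepFun hk
  let φ : unitInterval → ℝ := fun u =>
    (2:ℝ)^l * ({u : unitInterval | (u : ℝ) ≤ (1/2 : ℝ)^l}).indicator (fun _ => (1:ℝ)) u - 1
  have hφ : Measurable φ := by
    have : MeasurableSet {u : unitInterval | (u : ℝ) ≤ (1/2 : ℝ)^l} :=
      measurableSet_le measurable_subtype_coe measurable_const
    exact ((measurable_const.indicator this).const_mul _).sub_const _
  have h1 : IndepFun (H U k l) (H U k' l) mu := by
    have := h0.comp hφ hφ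
    exact this
  have h2 := h1.integral_mul_eq_mul_integral (measurable_H hU k l).aestronglyMeasurable
    (measurable_H hU k' l).aestronglyMeasurable
  have h3 : ∫ s, H U k l s * H U k' l s ∂mu = ∫ s, (H U k l * H U k' l) s ∂mu := rfl
  rw [h3, h2, integral_H hU hlaw, zero_mul]

/-- The element of `L¹`. -/
noncomputable def h (hU : ∀ k, Measurable (U k)) (k l : ℕ) : Lp ℝ 1 mu :=
  (integrable_H hU k l).toL1 (H U k l)

lemma norm_h_le (hU : ∀ k, Measurable (U k)) (hlaw : ∀ k, Measure.map (U k) mu = volume)
    (k l : ℕ) : ‖h hU k l‖ ≤ 2 := by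
  unfold h
  rw [L1.norm_of_fun_eq_integral_norm]
  have h1 : ∀ s, ‖H U k l s‖ ≤ (2:ℝ)^l * (A U k l).indicator (fun _ => (1:ℝ)) s + 1 := by
    intro s
    rw [Real.norm_eq_abs]
    unfold H
    by_cases hs : s ∈ A U k l
    · rw [Set.indicator_of_mem hs, mul_one]
      have : (0:ℝ) < 2^l := by positivity
      rw [abs_le]; constructor <;> linarith
    · rw [Set.indicator_of_notMem hs, mul_zero]
      rw [abs_le]; constructor <;> linarith
  have hi : Integrable (fun s => (2:ℝ)^l * (A U k l).indicator (fun _ => (1:ℝ)) s + 1) mu :=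
    (((integrable_const (1:ℝ)).indicator (measurableSet_A hU k l)).const_mul _).add
      (integrable_const _)
  calc ∫ s, ‖H U k l s‖ ∂mu ≤ ∫ s, ((2:ℝ)^l * (A U k l).indicator (fun _ => (1:ℝ)) s + 1) ∂mu :=
        integral_mono (integrable_H hU k l).norm hi h1
    _ = 2 := by
        rw [integral_add, integral_const_mul,
          integral_indicator_const _ (measurableSet_A hU k l), measReal_A hU hlaw]
        · simp; norm_num
        · exact ((integrable_const (1:ℝ)).indicator (measurableSet_A hU k l)).const_mul _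
        · exact integrable_const _

/-- Bessel type estimate: every functional is square summable along `h · l`. -/
lemma sum_sq_le (hU : ∀ k, Measurable (U k)) (hlaw : ∀ k, Measure.map (U k) mu = volume)
    (hind : iIndepFun U mu) (x : Lp ℝ 1 mu →L[ℝ] ℝ) (l N : ℕ) :
    ∑ k ∈ Finset.range N, (x (h hU k l))^2 ≤ ‖x‖^2 * 2^l := by
  set a : ℕ → ℝ := fun k => x (h hU k l) with ha
  set S : ℝ := ∑ k ∈ Finset.range N, (a k)^2 with hS
  have hSnn : 0 ≤ S := Finset.sum_nonneg fun k _ => sq_nonneg _
  -- the combination
  set F : ℝ → ℝ := fun s => ∑ k ∈ Finset.range N, a k * H U k l s with hF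
  have hFint : Integrable F mu :=
    integrable_finsetSum _ fun k _ => (integrable_H hU k l).const_mul _
  have hHH : ∀ i j, Integrable (fun s => H U i l s * H U j l s) mu := by
    intro i j
    refine Integrable.of_bound
      ((measurable_H hU i l).mul (measurable_H hU j l)).aestronglyMeasurable ((2^l+1)*(2^l+1)) ?_
    exact Filter.Eventually.of_forall fun s => by
      rw [Real.norm_eq_abs, abs_mul]
      exact mul_le_mul (abs_H_le i l s) (abs_H_le j l s) (abs_nonneg _) (by positivity)
  have hFsq : ∀ s, F s * F s = ∑ i ∈ Finset.range N, ∑ j ∈ Finset.range N,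
      (a i * a j) * (H U i l s * H U j l s) := by
    intro s
    simp only [hF]
    rw [Finset.sum_mul_sum]
    refine Finset.sum_congr rfl fun i _ => Finset.sum_congr rfl fun j _ => by ring
  have hFsqint : Integrable (fun s => F s * F s) mu := by
    simp_rw [hFsq]
    exact integrable_finsetSum _ fun i _ => integrable_finsetSum _ fun j _ =>
      (hHH i j).const_mul _
  have hFsqval : ∫ s, F s * F s ∂mu = S * (2^l - 1) := by
    simp_rw [hFsq]
    rw [integral_finsetSum _ fun i _ => integrable_finsetSum _ fun j _ =>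
      (hHH i j).const_mul _]
    rw [hS, Finset.sum_mul]
    refine Finset.sum_congr rfl fun i hi => ?_
    rw [integral_finsetSum _ fun j _ => (hHH i j).const_mul _]
    rw [Finset.sum_eq_single i]
    · rw [integral_const_mul, integral_H_sq hU hlaw]; ring
    · intro j _ hj
      rw [integral_const_mul, integral_H_mul hU hlaw hind hj.symm, mul_zero]
    · intro hni; exact absurd hi hni
  have hsum : ∑ k ∈ Finset.range N, a k • h hU k l = hFint.toL1 F := by
    have : ∀ M, ∀ hM : Integrable (fun s => ∑ k ∈ Finset.range M, a k * H U k l s) mu,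
        ∑ k ∈ Finset.range M, a k • h hU k l = hM.toL1 _ := by
      intro M
      induction M with
      | zero =>
        intro hM
        simp only [Finset.range_zero, Finset.sum_empty] at hM ⊢
        exact (Integrable.toL1_zero hM).symm
      | succ M ih =>
        intro hM
        have hM' : Integrable (fun s => ∑ k ∈ Finset.range M, a k * H U k l s) mu :=
          integrable_finsetSum _ fun k _ => (integrable_H hU k l).const_mul _
        rw [Finset.sum_range_succ, ih hM']
        have h2 : a M • h hU M l = ((integrable_H hU M l).const_mul (a M)).toL1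
            (fun s => a M * H U M l s) := by
          unfold h
          rw [← Integrable.toL1_smul' ]
          rfl
        rw [h2, ← Integrable.toL1_add]
        congr 1
        funext s
        simp only [Pi.add_apply]
        rw [Finset.sum_range_succ]
    exact this N hFint
  have hxS : S = x (hFint.toL1 F) := by
    rw [← hsum, map_sum]
    rw [hS]
    refine Finset.sum_congr rfl fun k _ => ?_
    rw [map_smul, smul_eq_mul, sq]
  have hbound : ∀ lam : ℝ, 0 < lam → S ≤ ‖x‖ * ((S * (2^l - 1)) / lam + lam) / 2 := by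
    intro lam hlam
    have h1 : S ≤ ‖x‖ * ‖hFint.toL1 F‖ := by
      calc S = x (hFint.toL1 F) := hxS
        _ ≤ |x (hFint.toL1 F)| := le_abs_self _
        _ ≤ _ := x.le_opNorm _
    have h2 : ‖hFint.toL1 F‖ ≤ ((S * (2^l - 1)) / lam + lam) / 2 := by
      rw [L1.norm_of_fun_eq_integral_norm]
      have h3 : ∀ s, ‖F s‖ ≤ ((F s * F s) / lam + lam) / 2 := by
        intro s
        rw [Real.norm_eq_abs]
        have h4 : 0 ≤ (|F s| - lam)^2 / lam := by positivity
        have h5 : (|F s| - lam)^2 / lam = (F s * F s) / lam + lam - 2 * |F s| := by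
          field_simp
          rw [sub_sq, sq_abs]
          ring
        linarith
      calc ∫ s, ‖F s‖ ∂mu ≤ ∫ s, ((F s * F s) / lam + lam) / 2 ∂mu :=
            integral_mono hFint.norm
              (((hFsqint.div_const lam).add (integrable_const lam)).div_const 2) h3
        _ = ((S * (2^l - 1)) / lam + lam) / 2 := by
            rw [integral_div, integral_add (hFsqint.div_const lam) (integrable_const lam),
              integral_div, hFsqval]
            simp
    calc S ≤ ‖x‖ * ‖hFint.toL1 F‖ := h1
      _ ≤ ‖x‖ * (((S * (2^l - 1)) / lam + lam) / 2) :=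
          mul_le_mul_of_nonneg_left h2 (norm_nonneg _)
      _ = _ := by ring
  have hc : (0:ℝ) < 2^l := by positivity
  by_cases hx0 : ‖x‖ = 0
  · have := hbound 1 one_pos
    rw [hx0] at this
    rw [hx0]
    simp only [zero_mul, zero_div] at this
    simpa using this
  · have hxpos : 0 < ‖x‖ := lt_of_le_of_ne (norm_nonneg _) (Ne.symm hx0)
    have := hbound (‖x‖ * 2^l) (by positivity)
    have h6 : ‖x‖ * ((S * (2^l - 1)) / (‖x‖ * 2^l) + ‖x‖ * 2^l) / 2
        = (S * (2^l-1) / 2^l + ‖x‖^2 * 2^l) / 2 := by
      field_simp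
    rw [h6] at this
    have h7 : S * (2^l-1) / 2^l ≤ S := by
      rw [div_le_iff₀ hc]
      nlinarith
    linarith

lemma tendsto_h (hU : ∀ k, Measurable (U k)) (hlaw : ∀ k, Measure.map (U k) mu = volume)
    (hind : iIndepFun U mu) (x : Lp ℝ 1 mu →L[ℝ] ℝ) (l : ℕ) :
    Tendsto (fun k => x (h hU k l)) atTop (𝓝 0) := by
  have hs : Summable (fun k => (x (h hU k l))^2) :=
    summable_of_sum_range_le (fun k => sq_nonneg _) (fun N => sum_sq_le hU hlaw hind x l N)
  have h1 := hs.tendsto_atTop_zero
  have h2 : Tendsto (fun k => Real.sqrt ((x (h hU k l))^2)) atTop (𝓝 (Real.sqrt 0)) :=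
    (Real.continuous_sqrt.tendsto 0).comp h1
  simp only [Real.sqrt_sq_eq_abs, Real.sqrt_zero] at h2
  exact tendsto_zero_iff_abs_tendsto_zero _ |>.2 h2

end

end Pool.Agent.W_MP_3c0e9a_an
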