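import Mathlib

set_option autoImplicit false
open MeasureTheory Filter Topology ProbabilityTheory

namespace Pool.Agent.W_MP_3c0e9a_an

/-- Lebesgue measure on the unit interval. -/
noncomputable abbrev mu : Measure ℝ := volume.restrict (Set.Icc (0:ℝ) 1)

instance instProbMu : IsProbabilityMeasure mu := by
  constructor
  simp [mu]

lemma measurePreserving_projIcc :
    MeasurePreserving (Set.projIcc (0:ℝ) 1 zero_le_one) mu (volume : Measure unitInterval) := by
  have h1 : MeasurePreserving ((↑) : unitInterval → ℝ) volume mu :=
    unitInterval.measurePreserving_coe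
  refine ⟨continuous_projIcc.measurable, ?_⟩
  rw [← h1.map_eq, Measure.map_map continuous_projIcc.measurable h1.measurable]
  have : (Set.projIcc (0:ℝ) 1 zero_le_one) ∘ ((↑) : unitInterval → ℝ) = id := by
    funext x
    simp
  rw [this, Measure.map_id]

/-- An i.i.d. sequence of uniform random variables on the unit interval with Lebesgue measure. -/
lemma exists_iid_unif : ∃ U : ℕ → ℝ → unitInterval, (∀ k, Measurable (U k)) ∧
    iIndepFun U mu ∧ ∀ k, Measure.map (U k) mu = volume := by
  obtain ⟨V, hV, hmap⟩ := MeasureTheory.Measure.exists_measurable_map_eq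
    (Measure.infinitePi (fun _ : ℕ => (volume : Measure unitInterval)))
  have hψ := measurePreserving_projIcc
  have hcomp : Measure.map (fun t => V (Set.projIcc (0:ℝ) 1 zero_le_one t)) mu =
      Measure.infinitePi (fun _ : ℕ => (volume : Measure unitInterval)) := by
    have := Measure.map_map (μ := mu) hV hψ.measurable
    rw [hψ.map_eq, hmap] at this
    rw [this]
    rfl
  have hmeas : ∀ k, Measurable (fun t => V (Set.projIcc (0:ℝ) 1 zero_le_one t) k) := fun k =>
    (measurable_pi_apply k).comp (hV.comp hψ.measurable)
  have hlaw : ∀ k, Measure.map (fun t => V (Set.projIcc (0:ℝ) 1 zero_le_one t) k) mu = volume := by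
    intro k
    have h2 := Measure.map_map (μ := mu) (measurable_pi_apply (X := fun _ : ℕ => unitInterval) k)
      (hV.comp hψ.measurable)
    have h3 : Measure.map (V ∘ Set.projIcc (0:ℝ) 1 zero_le_one) mu =
      Measure.infinitePi (fun _ : ℕ => (volume : Measure unitInterval)) := hcomp
    rw [h3] at h2
    have h4 := (measurePreserving_eval_infinitePi
      (fun _ : ℕ => (volume : Measure unitInterval)) k).map_eq
    exact (h2.symm.trans h4)
  refine ⟨fun k t => V (Set.projIcc (0:ℝ) 1 zero_le_one t) k, hmeas, ?_, hlaw⟩
  rw [iIndepFun_iff_map_fun_eq_infinitePi_map hmeas]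
  simp only [hlaw]
  exact hcomp

end Pool.Agent.W_MP_3c0e9a_an
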